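import Pool.Agent.P30.UnitIntervalG

/-!
The integers `m` with `1/(a+1) + ... + 1/b + 1/m` an integer, `MP_08f38f_nt`.

Two members with small `min I` and nearly the same `max I` have the same `m`, whatever their
integer values are; hence at most `C log X` integers `m` occur with `max I ≤ X`, and at most
`C log log M` integers `m ≤ M` occur at all.
-/

set_option autoImplicit false

namespace Pool.Agent.UFM

open Finset Pool.Agent.P30.UnitInterval

/-- the denominators are small, also for empty intervals -/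
lemma log_den_le' {x y w : ℕ} (hxy : x ≤ y) (hyw : y ≤ w) (hkw : 3000 * (y - x) ≤ w)
    (hw : 4000 ^ 4 ≤ w) : Real.log (den x y) ≤ 0.014 * w := by
  rcases Nat.eq_or_lt_of_le hxy with h | h
  · subst h
    have h1 : den x x = 1 := by
      unfold den smo
      rw [Nat.sub_self, Nat.choose_zero_right, mul_one]
      apply Finset.prod_eq_one
      intro p hp
      rw [Nat.mem_primesLE] at hp
      have := hp.2.pos
      omega
    rw [h1]
    simp
    positivity
  · exact log_den_le h hyw le_rfl hkw hw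

/-- a common denominator of the difference of two initial harmonic sums -/
lemma exists_den {a a' w : ℕ} (ha : 3000 * a ≤ w) (ha' : 3000 * a' ≤ w) (hw : 4000 ^ 4 ≤ w) :
    ∃ D : ℕ, 0 < D ∧ Real.log D ≤ 0.014 * w ∧ ∃ z : ℤ, (D : ℚ) * (hs 0 a' - hs 0 a) = z := by
  rcases Nat.le_total a a' with h | h
  · obtain ⟨z, hz⟩ := den_mul_hs (u := a) (w := a') h
    refine ⟨den a a', den_pos, log_den_le' h (by omega) (by omega) hw, z, ?_⟩
    have h1 : hs 0 a + hs a a' = hs 0 a' := hs_add (Nat.zero_le a) h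
    rw [← hz, ← h1]
    ring
  · obtain ⟨z, hz⟩ := den_mul_hs (u := a') (w := a) h
    refine ⟨den a' a, den_pos, log_den_le' h (by omega) (by omega) hw, -z, ?_⟩
    have h1 : hs 0 a' + hs a' a = hs 0 a := hs_add (Nat.zero_le a') h
    rw [Int.cast_neg, ← hz, ← h1]
    ring

/-- Two members with small `min I` and nearly the same `max I` have the same `m`. -/
theorem same_m {a b m s a' b' m' s' : ℕ} (h : Sol a b m s) (h' : Sol a' b' m' s')
    (hb : 4000 ^ 4 ≤ b) (hbb' : b ≤ b') (h3000 : 3000 * (b' - b) ≤ b)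
    (ha : 3000 * a ≤ b) (ha' : 3000 * a' ≤ b') : m = m' := by
  have hb3 : 300 ^ 4 ≤ b := by omega
  have hb3' : 300 ^ 4 ≤ b' := by omega
  have hw : 4000 ^ 4 ≤ b' := by omega
  have hbR : (4000 : ℝ) ^ 4 ≤ b := by exact_mod_cast hb
  have hbR' : (b : ℝ) ≤ b' := by exact_mod_cast hbb'
  have hm1 := inv_m_le h hb3
  have hm1' : (1 : ℝ) / m' ≤ Real.exp (-((b : ℝ) / 5)) := by
    refine le_trans (inv_m_le h' hb3') ?_
    apply Real.exp_le_exp.mpr
    linarith
  have hmR : (0 : ℝ) < m := by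
    have := h.hm
    exact_mod_cast this
  have hmR' : (0 : ℝ) < m' := by
    have := h'.hm
    exact_mod_cast this
  have hmpos : (0 : ℝ) < 1 / m := by positivity
  have hmpos' : (0 : ℝ) < 1 / m' := by positivity
  obtain ⟨D2, hD2pos, hD2log, z2, hz2⟩ := exists_den (a := a) (a' := a') (w := b')
    (by omega) ha' hw
  have hD1log := log_den_le' (x := b) (y := b') (w := b') hbb' le_rfl (by omega) hw
  obtain ⟨z1, hz1⟩ := den_mul_hs (u := b) (w := b') hbb'
  have hD1pos : 0 < den b b' := den_pos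
  generalize hD1def : den b b' = D1 at hD1log hz1 hD1pos
  -- the difference of the two unit fractions
  have e1 := h.eq
  have e2 := h'.eq
  have f1 : hs 0 a + hs a b = hs 0 b := hs_add (Nat.zero_le a) h.hab.le
  have f2 : hs 0 a' + hs a' b' = hs 0 b' := hs_add (Nat.zero_le a') h'.hab.le
  have f3 : hs 0 b + hs b b' = hs 0 b' := hs_add (Nat.zero_le b) hbb'
  have hdiff : (1 : ℚ) / m - 1 / m' = ((s : ℚ) - s') + hs b b' - (hs 0 a' - hs 0 a) := by
    linarith
  have hint : ((D1 : ℚ) * D2) * ((1 : ℚ) / m - 1 / m') =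
      (((D1 : ℤ) * D2 * ((s : ℤ) - s') + D2 * z1 - D1 * z2 : ℤ) : ℚ) := by
    rw [hdiff]
    push_cast
    rw [← hz1, ← hz2]
    ring
  have hDpos : (0 : ℚ) < (D1 : ℚ) * D2 := by
    have e3 : (0 : ℚ) < D1 := by exact_mod_cast hD1pos
    have e4 : (0 : ℚ) < D2 := by exact_mod_cast hD2pos
    exact mul_pos e3 e4
  by_cases hN : ((D1 : ℤ) * D2 * ((s : ℤ) - s') + D2 * z1 - D1 * z2) = 0
  · rw [hN, Int.cast_zero] at hint
    rcases mul_eq_zero.mp hint with h1 | h1
    · exact absurd h1 hDpos.ne'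
    · have h2 : (1 : ℚ) / m = 1 / m' := by linarith
      rw [one_div, one_div] at h2
      exact_mod_cast inv_injective h2
  · exfalso
    have habs : (1 : ℚ) ≤ |(((D1 : ℤ) * D2 * ((s : ℤ) - s') + D2 * z1 - D1 * z2 : ℤ) : ℚ)| := by
      have : (1 : ℤ) ≤ |(D1 : ℤ) * D2 * ((s : ℤ) - s') + D2 * z1 - D1 * z2| :=
        Int.one_le_abs hN
      exact_mod_cast this
    rw [← hint, abs_mul, abs_of_pos hDpos] at habs
    have habsR : (1 : ℝ) ≤ ((D1 : ℝ) * D2) * |(1 : ℝ) / m - 1 / m'| := by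
      have : ((1 : ℚ) : ℝ) ≤ ((((D1 : ℚ) * D2) * |(1 : ℚ) / m - 1 / m'| : ℚ) : ℝ) := by
        exact_mod_cast habs
      push_cast at this
      exact this
    have habs2 : |(1 : ℝ) / m - 1 / m'| ≤ Real.exp (-((b : ℝ) / 5)) := by
      rw [abs_le]
      constructor <;> linarith
    have hD1R : (0 : ℝ) < D1 := by exact_mod_cast hD1pos
    have hD2R : (0 : ℝ) < D2 := by exact_mod_cast hD2pos
    have hfin : (1 : ℝ) ≤ ((D1 : ℝ) * D2) * Real.exp (-((b : ℝ) / 5)) :=
      le_trans habsR (mul_le_mul_of_nonneg_left habs2 (by positivity))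
    have hlog := Real.log_le_log (by norm_num) hfin
    rw [Real.log_one, Real.log_mul (by positivity) (Real.exp_pos _).ne',
      Real.log_mul hD1R.ne' hD2R.ne', Real.log_exp] at hlog
    have h3000R : (3000 : ℝ) * ((b' : ℝ) - b) ≤ b := by
      have h8 : ((3000 * (b' - b) : ℕ) : ℝ) ≤ (b : ℝ) := by exact_mod_cast h3000
      push_cast [Nat.cast_sub hbb'] at h8
      exact h8
    linarith

/-- for integer value at least ten, `min I` is small -/
lemma a_small {a b m s : ℕ} (h : Sol a b m s) (hs10 : 10 ≤ s) : 3000 * a ≤ b := by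
  by_contra hcon
  push Not at hcon
  have hab := h.hab
  have ha1 : 1 ≤ a := by omega
  have haR : (0 : ℝ) < a := by exact_mod_cast ha1
  have hbR : (0 : ℝ) < b := by
    have : 0 < b := by omega
    exact_mod_cast this
  have hmq : (1 : ℚ) ≤ m := by exact_mod_cast h.hm
  have q1 : (1 : ℚ) / m ≤ 1 := by rw [div_le_one (by linarith)]; exact hmq
  have hsq : (10 : ℚ) ≤ s := by exact_mod_cast hs10
  have h1 : (9 : ℚ) ≤ hs a b := by
    have := h.eq
    linarith
  have h1R : (9 : ℝ) ≤ ((hs a b : ℚ) : ℝ) := by exact_mod_cast h1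
  have h2 := hs_le_log ha1 hab.le
  have h3 : (b : ℝ) / a < 3000 := by
    rw [div_lt_iff₀ haR]
    exact_mod_cast hcon
  have h4 : (3000 : ℝ) < Real.exp 9 := by
    have h5 := Real.exp_one_gt_d9
    calc (3000 : ℝ) < (2.7182818283 : ℝ) ^ 9 := by norm_num
      _ < Real.exp 1 ^ 9 := pow_lt_pow_left₀ h5 (by norm_num) (by norm_num)
      _ = Real.exp 9 := by rw [← Real.exp_nat_mul]; norm_num
  have h6 : Real.log ((b : ℝ) / a) < 9 := by
    rw [Real.log_lt_iff_lt_exp (by positivity)]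
    linarith
  linarith

/-- `m` is determined by the interval -/
lemma m_unique {a b m m' s s' : ℕ} (h : Sol a b m s) (h' : Sol a b m' s') : m = m' := by
  have e1 := h.eq
  have e2 := h'.eq
  have hm : (1 : ℚ) ≤ m := by exact_mod_cast h.hm
  have hm' : (1 : ℚ) ≤ m' := by exact_mod_cast h'.hm
  have p1 : (0 : ℚ) < 1 / m := by positivity
  have p2 : (0 : ℚ) < 1 / m' := by positivity
  have q1 : (1 : ℚ) / m ≤ 1 := by rw [div_le_one (by linarith)]; exact hm
  have q2 : (1 : ℚ) / m' ≤ 1 := by rw [div_le_one (by linarith)]; exact hm'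
  have h1 : (1 : ℚ) / m - 1 / m' = ((s : ℤ) - s' : ℤ) := by
    push_cast
    linarith
  have h2 : ((s : ℤ) - s') = 0 := by
    have h3 : (((s : ℤ) - s' : ℤ) : ℚ) < 1 := by rw [← h1]; linarith
    have h4 : (-1 : ℚ) < (((s : ℤ) - s' : ℤ) : ℚ) := by rw [← h1]; linarith
    have h5 : (s : ℤ) - s' < 1 := by exact_mod_cast h3
    have h6 : -1 < (s : ℤ) - s' := by exact_mod_cast h4
    omega
  rw [h2] at h1
  have h3 : (1 : ℚ) / m = 1 / m' := by
    push_cast at h1
    linarith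
  rw [one_div, one_div] at h3
  exact_mod_cast inv_injective h3

/-- the logarithm of the window ratio -/
noncomputable def lam : ℝ := Real.log (3001 / 3000)

lemma lam_pos : 0 < lam := Real.log_pos (by norm_num)

/-- window index -/
noncomputable def widx (b : ℕ) : ℕ := ⌊Real.log b / lam⌋₊

lemma window {b b' : ℕ} (hb : 1 ≤ b) (h : b ≤ b') (hw : widx b = widx b') :
    3000 * (b' - b) ≤ b := by
  have hb0 : (0 : ℝ) < b := by exact_mod_cast hb
  have hb0' : (0 : ℝ) < b' := by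
    have : 0 < b' := by omega
    exact_mod_cast this
  have hl : 0 ≤ Real.log b := Real.log_nonneg (by exact_mod_cast hb)
  have hl' : 0 ≤ Real.log b' := Real.log_nonneg (by exact_mod_cast (by omega : 1 ≤ b'))
  have h1 : (widx b : ℝ) ≤ Real.log b / lam := Nat.floor_le (div_nonneg hl lam_pos.le)
  have h2 : Real.log b' / lam < (widx b' : ℝ) + 1 := Nat.lt_floor_add_one _
  rw [← hw] at h2
  have h3 : Real.log b' / lam < Real.log b / lam + 1 := by linarith
  have h4 : Real.log b' < Real.log b + lam := by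
    have h5 := (mul_lt_mul_iff_left₀ lam_pos).mpr h3
    rw [div_mul_cancel₀ _ lam_pos.ne', add_mul, div_mul_cancel₀ _ lam_pos.ne', one_mul] at h5
    exact h5
  unfold lam at h4
  rw [← Real.log_mul hb0.ne' (by norm_num)] at h4
  have h5 : (b' : ℝ) < b * (3001 / 3000) := (Real.log_lt_log_iff hb0' (by positivity)).mp h4
  have h6 : (3000 : ℝ) * b' < 3001 * b := by linarith
  have h7 : 3000 * b' < 3001 * b := by exact_mod_cast h6
  omega

/-- the code of a solution: its value up to ten, and its window -/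
lemma code_inj {B a b m s a' b' m' s' : ℕ}
    (hB : ∀ a b m a' b' m' s : ℕ, B ≤ b → Sol a b m s → Sol a' b' m' s →
      b ≤ b' → 3000 * (b' - b) ≤ b → a = a' ∧ b = b')
    (h : Sol a b m s) (h' : Sol a' b' m' s') (hb : max B (4000 ^ 4) ≤ b)
    (hbb' : b ≤ b') (hw : widx b = widx b') (hs : min s 10 = min s' 10) : m = m' := by
  have hb1 : B ≤ b := le_trans (le_max_left _ _) hb
  have hb2 : 4000 ^ 4 ≤ b := le_trans (le_max_right _ _) hb
  have h3000 := window (by omega) hbb' hw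
  rcases Nat.lt_or_ge s 10 with h1 | h1
  · have h2 : s = s' := by omega
    subst h2
    obtain ⟨h3, h4⟩ := hB a b m a' b' m' s hb1 h h' hbb' h3000
    subst h3 h4
    exact m_unique h h'
  · have h2 : 10 ≤ s' := by omega
    exact same_m h h' hb2 hbb' h3000 (a_small h h1) (a_small h' h2)

/-- There is `C` such that for every `X ≥ 2` at most `C log X` integers `m` occur with
`max I ≤ X`. -/
theorem count_max : ∃ C : ℝ, 0 < C ∧ ∀ X : ℕ, 2 ≤ X →
    {m : ℕ | ∃ a b s, Sol a b m s ∧ b ≤ X}.Finite ∧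
    (({m : ℕ | ∃ a b s, Sol a b m s ∧ b ≤ X}.ncard : ℕ) : ℝ) ≤ C * Real.log X := by
  classical
  obtain ⟨B0, hB0⟩ := gap
  set B := max B0 (4000 ^ 4) with hBdef
  refine ⟨2 * (B : ℝ) ^ 2 + 11 * (2 + 1 / lam), ?_, ?_⟩
  · have := lam_pos
    positivity
  intro X hX
  set L := Real.log X with hL
  have hXR : (2 : ℝ) ≤ X := by exact_mod_cast hX
  have hL2 : (1 : ℝ) / 2 ≤ L := by
    have h1 : Real.log 2 ≤ Real.log X := Real.log_le_log (by norm_num) hXR
    have h2 := Real.log_two_gt_d9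
    rw [hL]; linarith
  set T : Set ℕ := {m : ℕ | ∃ a b s, Sol a b m s ∧ b ≤ X} with hT
  -- small `b`
  set g : ℕ × ℕ → ℕ := fun q => if h : ∃ m s, Sol q.1 q.2 m s then h.choose else 0 with hg
  set F1 : Finset ℕ := (Finset.range B ×ˢ Finset.range B).image g with hF1
  have hT1 : ∀ a b m s : ℕ, Sol a b m s → b < B → m ∈ F1 := by
    intro a b m s h hb
    rw [hF1, Finset.mem_image]
    refine ⟨(a, b), ?_, ?_⟩
    · rw [Finset.mem_product, Finset.mem_range, Finset.mem_range]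
      have := h.hab
      exact ⟨by omega, hb⟩
    · have hex : ∃ m s, Sol a b m s := ⟨m, s, h⟩
      simp only [hg]
      rw [dif_pos hex]
      obtain ⟨s', hs'⟩ := hex.choose_spec
      exact m_unique hs' h
  have hF1card : F1.card ≤ B * B := by
    refine le_trans Finset.card_image_le ?_
    rw [Finset.card_product, Finset.card_range]
  -- large `b`
  set W := ⌊L / lam⌋₊ with hW
  set T2 : Set ℕ := {m : ℕ | ∃ a b s, Sol a b m s ∧ B ≤ b ∧ b ≤ X} with hT2
  have hch : ∀ m : ℕ, m ∈ T2 → ∃ q : ℕ × ℕ × ℕ, Sol q.1 q.2.1 m q.2.2 ∧ B ≤ q.2.1 ∧ q.2.1 ≤ X := by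
    rintro m ⟨a, b, s, h1, h2, h3⟩
    exact ⟨(a, b, s), h1, h2, h3⟩
  set q : ℕ → ℕ × ℕ × ℕ := fun m => if h : ∃ q : ℕ × ℕ × ℕ, Sol q.1 q.2.1 m q.2.2 ∧ B ≤ q.2.1 ∧
    q.2.1 ≤ X then h.choose else (0, 0, 0) with hq
  have hqs : ∀ m ∈ T2, Sol (q m).1 (q m).2.1 m (q m).2.2 ∧ B ≤ (q m).2.1 ∧ (q m).2.1 ≤ X := by
    intro m hm
    have h1 := hch m hm
    simp only [hq]
    rw [dif_pos h1]
    exact h1.choose_spec
  set f : ℕ → ℕ × ℕ := fun m => (min (q m).2.2 10, widx (q m).2.1) with hf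
  have hmaps : ∀ m ∈ T2, f m ∈ ((Finset.range 11 ×ˢ Finset.range (W + 1) : Finset (ℕ × ℕ)) :
      Set (ℕ × ℕ)) := by
    intro m hm
    obtain ⟨h1, h2, h3⟩ := hqs m hm
    simp only [Finset.coe_product, Finset.coe_range, Set.mem_prod, Set.mem_Iio, hf]
    refine ⟨by omega, ?_⟩
    have hb1 : 1 ≤ (q m).2.1 := by have := h1.hab; omega
    have hb0 : (0 : ℝ) < ((q m).2.1 : ℝ) := by exact_mod_cast hb1
    have hlogb : Real.log ((q m).2.1 : ℝ) ≤ L := by
      apply Real.log_le_log hb0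
      exact_mod_cast h3
    have h4 : widx (q m).2.1 ≤ W := by
      unfold widx
      rw [hW]
      apply Nat.floor_le_floor
      exact div_le_div_of_nonneg_right hlogb lam_pos.le
    omega
  have hinj : Set.InjOn f T2 := by
    intro m hm m' hm' heq
    obtain ⟨h1, h2, h3⟩ := hqs m hm
    obtain ⟨h1', h2', h3'⟩ := hqs m' hm'
    simp only [hf, Prod.mk.injEq] at heq
    rcases Nat.le_total (q m).2.1 (q m').2.1 with h | h
    · exact code_inj hB0 h1 h1' h2 h heq.2 heq.1
    · exact (code_inj hB0 h1' h1 h2' h heq.2.symm heq.1.symm).symm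
  have hfin2 : T2.Finite := Set.Finite.of_injOn hmaps hinj (Finset.finite_toSet _)
  have hcard2 : T2.ncard ≤ 11 * (W + 1) := by
    have h1 := Set.ncard_le_ncard_of_injOn f hmaps hinj (Finset.finite_toSet _)
    rw [Set.ncard_coe_finset, Finset.card_product, Finset.card_range, Finset.card_range] at h1
    exact h1
  have hsub : T ⊆ (F1 : Set ℕ) ∪ T2 := by
    rintro m ⟨a, b, s, h1, h2⟩
    rcases Nat.lt_or_ge b B with h | h
    · left
      exact hT1 a b m s h1 h
    · right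
      exact ⟨a, b, s, h1, h, h2⟩
  have hfinU : ((F1 : Set ℕ) ∪ T2).Finite := (Finset.finite_toSet _).union hfin2
  refine ⟨hfinU.subset hsub, ?_⟩
  have hcard : T.ncard ≤ B * B + 11 * (W + 1) := by
    calc T.ncard ≤ ((F1 : Set ℕ) ∪ T2).ncard := Set.ncard_le_ncard hsub hfinU
      _ ≤ (F1 : Set ℕ).ncard + T2.ncard := Set.ncard_union_le _ _
      _ ≤ _ := by
          rw [Set.ncard_coe_finset]
          exact Nat.add_le_add hF1card hcard2
  have hcardR : ((T.ncard : ℕ) : ℝ) ≤ (B : ℝ) * B + 11 * ((W : ℝ) + 1) := by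
    exact_mod_cast hcard
  have hWle : (W : ℝ) ≤ L / lam := Nat.floor_le (div_nonneg (by linarith) lam_pos.le)
  have hlam := lam_pos
  have h1 : (B : ℝ) * B ≤ 2 * (B : ℝ) ^ 2 * L := by
    have : (0 : ℝ) ≤ (B : ℝ) ^ 2 := by positivity
    nlinarith
  have h2 : (11 : ℝ) * ((W : ℝ) + 1) ≤ 11 * (2 + 1 / lam) * L := by
    have h3 : (W : ℝ) + 1 ≤ L / lam + 2 * L := by linarith
    have h4 : L / lam + 2 * L = (2 + 1 / lam) * L := by ring
    rw [h4] at h3
    linarith
  calc ((T.ncard : ℕ) : ℝ) ≤ (B : ℝ) * B + 11 * ((W : ℝ) + 1) := hcardR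
    _ ≤ 2 * (B : ℝ) ^ 2 * L + 11 * (2 + 1 / lam) * L := by linarith
    _ = _ := by ring

/-- There is `C` such that for every `M ≥ 3` at most `C log log M` integers `m ≤ M` occur. -/
theorem count_m : ∃ C : ℝ, 0 < C ∧ ∀ M : ℕ, 3 ≤ M →
    (({m : ℕ | m ≤ M ∧ ∃ a b s, Sol a b m s}.ncard : ℕ) : ℝ) ≤ C * Real.log (Real.log M) := by
  obtain ⟨C, hC, h⟩ := count_max
  have hl3 : 1 < Real.log 3 := by
    rw [Real.lt_log_iff_exp_lt (by norm_num)]
    have := Real.exp_one_lt_d9
    linarith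
  set c0 := Real.log (Real.log 3) with hc0
  have hc0pos : 0 < c0 := Real.log_pos hl3
  set K := Real.log (5 * 300 ^ 4) with hK
  have hKpos : 0 < K := Real.log_pos (by norm_num)
  refine ⟨C * (1 + K / c0), by positivity, ?_⟩
  intro M hM
  have hMR : (3 : ℝ) ≤ M := by exact_mod_cast hM
  have hlM : Real.log 3 ≤ Real.log M := Real.log_le_log (by norm_num) hMR
  have hlM1 : 1 < Real.log M := by linarith
  have hll : c0 ≤ Real.log (Real.log M) := Real.log_le_log (by linarith) hlM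
  set X := 300 ^ 4 * (⌊5 * Real.log M⌋₊) with hX
  have hf5 : 5 ≤ ⌊5 * Real.log M⌋₊ := Nat.le_floor (by push_cast; linarith)
  have hX2 : 2 ≤ X := by
    rw [hX]
    omega
  obtain ⟨hfin, hcard⟩ := h X hX2
  have hsub : {m : ℕ | m ≤ M ∧ ∃ a b s, Sol a b m s} ⊆ {m : ℕ | ∃ a b s, Sol a b m s ∧ b ≤ X} := by
    rintro m ⟨hmM, a, b, s, hsol⟩
    refine ⟨a, b, s, hsol, ?_⟩
    rcases Nat.lt_or_ge b (300 ^ 4) with h1 | h1
    · rw [hX]
      omega
    · have h2 := log_m_ge hsol (by exact_mod_cast h1)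
      have hm1 : (1 : ℝ) ≤ m := by exact_mod_cast hsol.hm
      have h3 : Real.log m ≤ Real.log M := by
        apply Real.log_le_log (by linarith)
        exact_mod_cast hmM
      have h4 : b ≤ ⌊5 * Real.log M⌋₊ := by
        apply Nat.le_floor
        linarith
      rw [hX]
      omega
  have h1 : ({m : ℕ | m ≤ M ∧ ∃ a b s, Sol a b m s}.ncard : ℕ) ≤
      ({m : ℕ | ∃ a b s, Sol a b m s ∧ b ≤ X}.ncard : ℕ) := Set.ncard_le_ncard hsub hfin
  have h1R : (({m : ℕ | m ≤ M ∧ ∃ a b s, Sol a b m s}.ncard : ℕ) : ℝ) ≤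
      (({m : ℕ | ∃ a b s, Sol a b m s ∧ b ≤ X}.ncard : ℕ) : ℝ) := by exact_mod_cast h1
  have h2 : Real.log X ≤ K + Real.log (Real.log M) := by
    have h3 : (X : ℝ) ≤ (5 * 300 ^ 4) * Real.log M := by
      have h4 : ((⌊5 * Real.log M⌋₊ : ℕ) : ℝ) ≤ 5 * Real.log M := Nat.floor_le (by linarith)
      rw [hX]
      push_cast
      linarith
    have hX0 : (0 : ℝ) < X := by
      have : 0 < X := by omega
      exact_mod_cast this
    have h5 := Real.log_le_log hX0 h3
    rw [Real.log_mul (by norm_num) (by linarith)] at h5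
    exact h5
  have h3 : K ≤ K / c0 * Real.log (Real.log M) := by
    rw [div_mul_eq_mul_div, le_div_iff₀ hc0pos]
    exact mul_le_mul_of_nonneg_left hll hKpos.le
  calc (({m : ℕ | m ≤ M ∧ ∃ a b s, Sol a b m s}.ncard : ℕ) : ℝ)
      ≤ C * Real.log X := le_trans h1R hcard
    _ ≤ C * ((1 + K / c0) * Real.log (Real.log M)) := by
        apply mul_le_mul_of_nonneg_left _ hC.le
        linarith
    _ = _ := by ring

/-- only finitely many `m ≤ M` -/
theorem numberM_finite (M : ℕ) : {m : ℕ | m ≤ M ∧ ∃ a b s : ℕ, Sol a b m s}.Finite :=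
  (Set.finite_Iic M).subset fun _ hm => hm.1

/-- At most `C log log M` integers `m ≤ M` occur in members of `P`. -/
theorem numberM : ∃ C : ℝ, ∀ M : ℕ, 3 ≤ M →
    ({m : ℕ | m ≤ M ∧ ∃ a b s : ℕ, Sol a b m s}.ncard : ℝ) ≤ C * Real.log (Real.log M) := by
  obtain ⟨C, _, h⟩ := count_m
  exact ⟨C, h⟩

/-- At most `C log X` integers `m` occur in members of `P` with `max I ≤ X`. -/
theorem numberMax : ∃ C : ℝ, ∀ X : ℕ, 2 ≤ X →
    {m : ℕ | ∃ a b s : ℕ, Sol a b m s ∧ b ≤ X}.Finite ∧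
    ({m : ℕ | ∃ a b s : ℕ, Sol a b m s ∧ b ≤ X}.ncard : ℝ) ≤ C * Real.log X := by
  obtain ⟨C, _, h⟩ := count_max
  exact ⟨C, h⟩

end Pool.Agent.UFM
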